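import Mathlib

set_option autoImplicit false

namespace Pool.Agent.Helper1.SW

/-- The commutator `a b a⁻¹ b⁻¹` in a group. -/
def cm {G : Type*} [Group G] (a b : G) : G := a * b * a⁻¹ * b⁻¹

theorem word_conj {G T : Type*} [Group G] [CommGroup T] (D : T →* G) (τ : T →* T) (F X : G)
    (ζ q : T) (hX : ∀ σ, X * D σ = D (τ σ) * X) (hq : ∀ g, D q * g = g * D q)
    (hζ : τ ζ = q * ζ) (h1 : F * D ζ = X * F) (h2 : D ζ * (F * X) = F) (σ S : T)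
    (hS : (τ (τ σ)) / σ = τ (τ (τ (τ (τ S))))) :
    cm (cm (D ζ) (F * D σ)) (cm ((D ζ) ^ 2) ((F * D σ) ^ 2)) = F * D (q⁻¹ ^ 4 * (S / τ S)) * F⁻¹ := by
  set x := D ζ with hx
  set y := F * D σ with hy
  have hyx : y * x * y⁻¹ = X := by
    have hc : D σ * D ζ = D ζ * D σ := by rw [← map_mul, ← map_mul, mul_comm]
    rw [hy, hx]
    calc F * D σ * D ζ * (F * D σ)⁻¹ = F * (D σ * D ζ) * (D σ)⁻¹ * F⁻¹ := by group
      _ = (F * D ζ) * F⁻¹ := by rw [hc]; group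
      _ = X := by rw [h1]; group
  have e1 : F⁻¹ * x * F = X⁻¹ := by
    have : x * F * X = F := by rw [mul_assoc]; exact h2
    calc F⁻¹ * x * F = F⁻¹ * (x * F * X) * X⁻¹ := by group
      _ = X⁻¹ := by rw [this]; group
  have e2 : F⁻¹ * X * F = x := by
    calc F⁻¹ * X * F = F⁻¹ * (X * F) := by group
      _ = x := by rw [← h1]; group
  have hc : cm x y = F * (X⁻¹ * x⁻¹) * F⁻¹ := by
    calc cm x y = x * (y * x * y⁻¹)⁻¹ := by rw [cm]; group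
      _ = x * X⁻¹ := by rw [hyx]
      _ = F * ((F⁻¹ * x * F) * (F⁻¹ * X * F)⁻¹) * F⁻¹ := by group
      _ = F * (X⁻¹ * x⁻¹) * F⁻¹ := by rw [e1, e2]
  have X2 : ∀ σ, X ^ 2 * D σ = D (τ (τ σ)) * X ^ 2 := by
    intro σ
    calc X ^ 2 * D σ = X * (X * D σ) := by rw [sq, mul_assoc]
      _ = (X * D (τ σ)) * X := by rw [hX, mul_assoc]
      _ = D (τ (τ σ)) * X ^ 2 := by rw [hX, sq, mul_assoc]
  have X5 : X ^ 5 * D S = D (τ (τ (τ (τ (τ S))))) * X ^ 5 := by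
    calc X ^ 5 * D S = X * (X ^ 2 * (X ^ 2 * D S)) := by group
      _ = X * (X ^ 2 * (D (τ (τ S)) * X ^ 2)) := by rw [X2]
      _ = X * ((X ^ 2 * D (τ (τ S))) * X ^ 2) := by group
      _ = (X * (D (τ (τ (τ (τ S)))))) * X ^ 4 := by rw [X2]; group
      _ = D (τ (τ (τ (τ (τ S))))) * X ^ 5 := by rw [hX]; group
  have hd : cm (x ^ 2) (y ^ 2) = F * (X⁻¹ ^ 4 * D (τ (τ (τ (τ (τ S)))))) * F⁻¹ := by
    have e3 : D σ * X ^ 2 * (D σ)⁻¹ = (D (τ (τ (τ (τ (τ S))))))⁻¹ * X ^ 2 := by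
      rw [← hS, ← map_inv, ← map_inv, mul_assoc, X2, ← mul_assoc, ← map_mul]
      congr 2
      rw [map_inv, map_inv, inv_div, div_eq_mul_inv]
    calc cm (x ^ 2) (y ^ 2) = x ^ 2 * (y * (y * x * y⁻¹) ^ 2 * y⁻¹)⁻¹ := by
          rw [cm, conj_pow]; group
      _ = x ^ 2 * (y * X ^ 2 * y⁻¹)⁻¹ := by rw [hyx]
      _ = F * ((F⁻¹ * x * F) ^ 2 * (D σ * X ^ 2 * (D σ)⁻¹)⁻¹) * F⁻¹ := by
          have : (F⁻¹ * x * F) ^ 2 = F⁻¹ * x ^ 2 * F := by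
            have := conj_pow (a := F⁻¹) (b := x) (i := 2)
            rw [inv_inv] at this
            exact this
          rw [this, hy]; group
      _ = F * (X⁻¹ ^ 4 * D (τ (τ (τ (τ (τ S)))))) * F⁻¹ := by
          rw [e1, e3]; group
  have hxX : x⁻¹ * X * x = D q * X := by
    have : X * x = D q * x * X := by rw [hx, hX, hζ, map_mul]
    calc x⁻¹ * X * x = x⁻¹ * (X * x) := by group
      _ = x⁻¹ * (D q * x) * X := by rw [this]; group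
      _ = D q * X := by rw [hq]; group
  have hxX4 : x⁻¹ * X⁻¹ ^ 4 * x = D (q⁻¹ ^ 4) * X⁻¹ ^ 4 := by
    have h4 : x⁻¹ * X ^ 4 * x = X ^ 4 * D (q ^ 4) := by
      have := conj_pow (a := x⁻¹) (b := X) (i := 4)
      rw [inv_inv] at this
      rw [← this, hxX, map_pow]
      have hcomm : Commute (D q) X := hq X
      rw [hcomm.mul_pow]
      exact (hcomm.pow_pow 4 4).eq
    calc x⁻¹ * X⁻¹ ^ 4 * x = (x⁻¹ * X ^ 4 * x)⁻¹ := by group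
      _ = D (q⁻¹ ^ 4) * X⁻¹ ^ 4 := by rw [h4, mul_inv_rev, ← map_inv, inv_pow, inv_pow]
  have hq4 : ∀ g, g * D (q⁻¹ ^ 4) = D (q⁻¹ ^ 4) * g := by
    intro g
    have h : Commute (D q) g := hq g
    have h' : Commute (D q)⁻¹ g := h.inv_left
    have h'' : Commute ((D q)⁻¹ ^ 4) g := h'.pow_left 4
    rw [map_pow, map_inv]
    exact h''.eq.symm
  set E := D (τ (τ (τ (τ (τ S))))) with hE
  have hxE : x⁻¹ * E * x = E := by
    have : E * x = x * E := by rw [hE, hx, ← map_mul, ← map_mul, mul_comm]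
    calc x⁻¹ * E * x = x⁻¹ * (E * x) := by group
      _ = E := by rw [this]; group
  have X5' : X⁻¹ ^ 5 * E = D S * X⁻¹ ^ 5 := by
    calc X⁻¹ ^ 5 * E = X⁻¹ ^ 5 * (E * X ^ 5) * X⁻¹ ^ 5 := by group
      _ = D S * X⁻¹ ^ 5 := by rw [← X5]; group
  have X4' : X⁻¹ ^ 4 * E⁻¹ * X ^ 4 = (D (τ S))⁻¹ := by
    have h : X ^ 4 * D (τ S) = E * X ^ 4 := by
      calc X ^ 4 * D (τ S) = X ^ 2 * (X ^ 2 * D (τ S)) := by group
        _ = (X ^ 2 * D (τ (τ (τ S)))) * X ^ 2 := by rw [X2]; group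
        _ = E * X ^ 4 := by rw [X2, ← hE]; group
    calc X⁻¹ ^ 4 * E⁻¹ * X ^ 4 = (X⁻¹ ^ 4 * (E * X ^ 4))⁻¹ := by group
      _ = (D (τ S))⁻¹ := by rw [← h]; group
  rw [hc, hd]
  calc cm (F * (X⁻¹ * x⁻¹) * F⁻¹) (F * (X⁻¹ ^ 4 * E) * F⁻¹)
      = F * (X⁻¹ * (x⁻¹ * X⁻¹ ^ 4 * x) * (x⁻¹ * E * x) * X * E⁻¹ * X ^ 4) * F⁻¹ := by
        rw [cm]; group
    _ = F * ((X⁻¹ * D (q⁻¹ ^ 4)) * X⁻¹ ^ 4 * E * X * E⁻¹ * X ^ 4) * F⁻¹ := by
        rw [hxX4, hxE]; group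
    _ = F * (D (q⁻¹ ^ 4) * (X⁻¹ ^ 5 * E) * X * E⁻¹ * X ^ 4) * F⁻¹ := by
        rw [hq4]; group
    _ = F * (D (q⁻¹ ^ 4) * (D S * (X⁻¹ ^ 4 * E⁻¹ * X ^ 4))) * F⁻¹ := by
        rw [X5']; group
    _ = F * D (q⁻¹ ^ 4 * (S / τ S)) * F⁻¹ := by
        rw [X4', ← map_inv, ← map_mul, ← map_mul, div_eq_mul_inv]

end Pool.Agent.Helper1.SW
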