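import Mathlib
import Pool.Agent.Helper1.SW.Odd

set_option autoImplicit false

namespace Pool.Agent.Helper1.SW

open Matrix

variable {n : ℕ} [NeZero n]

/-- diagonal matrices -/
noncomputable def Dg (X : Type*) [Fintype X] [DecidableEq X] : (X → Circle) →* unitaryGroup X ℂ where
  toFun σ := ⟨diagonal (fun i => (σ i : ℂ)), by
    rw [mem_unitaryGroup_iff, star_eq_conjTranspose, diagonal_conjTranspose, diagonal_mul_diagonal]
    rw [← diagonal_one]
    congr 1
    funext i
    show (σ i : ℂ) * (starRingEnd ℂ) (σ i : ℂ) = 1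
    rw [← Circle.coe_inv_eq_conj, ← Circle.coe_mul, mul_inv_cancel, Circle.coe_one]⟩
  map_one' := by
    ext i j
    simp [diagonal_apply, one_apply]
  map_mul' σ τ := by
    apply Subtype.ext
    show diagonal _ = diagonal _ * diagonal _
    rw [diagonal_mul_diagonal]
    congr 1

/-- shift of functions -/
def sh (n : ℕ) (c : ZMod n) : (ZMod n → Circle) →* (ZMod n → Circle) where
  toFun σ := fun j => σ (j + c)
  map_one' := rfl
  map_mul' _ _ := rfl

/-- the shift matrix -/
noncomputable def XM (n : ℕ) : Matrix (ZMod n) (ZMod n) ℂ :=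
  Matrix.of fun i j => if j = i + 1 then 1 else 0

/-- the Fourier matrix -/
noncomputable def FM (n : ℕ) [NeZero n] : Matrix (ZMod n) (ZMod n) ℂ :=
  Matrix.of fun i j => ((Real.sqrt n : ℝ) : ℂ)⁻¹ * (ZMod.stdAddChar (i * j) : ℂ)

/-- the shift matrix -/
noncomputable def Xm (n : ℕ) [NeZero n] : unitaryGroup (ZMod n) ℂ :=
  ⟨XM n, by
    rw [mem_unitaryGroup_iff]
    ext i j
    rw [mul_apply]
    simp only [star_apply, one_apply, XM, of_apply]
    rw [Finset.sum_eq_single (i + 1)]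
    · by_cases h : i = j
      · simp [h]
      · simp [h]
    · intro k _ hk
      rw [if_neg hk, zero_mul]
    · intro h; exact absurd (Finset.mem_univ _) h⟩

/-- the Fourier matrix -/
noncomputable def Fm (n : ℕ) [NeZero n] : unitaryGroup (ZMod n) ℂ :=
  ⟨FM n, by
    rw [mem_unitaryGroup_iff]
    ext i j
    rw [mul_apply]
    simp only [star_apply, one_apply, FM, of_apply]
    have hn : (n : ℝ) ≠ 0 := by exact_mod_cast NeZero.ne n
    have hs : ((Real.sqrt n : ℝ) : ℂ)⁻¹ * ((Real.sqrt n : ℝ) : ℂ)⁻¹ = ((n : ℂ))⁻¹ := by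
      rw [← mul_inv, ← Complex.ofReal_mul, Real.mul_self_sqrt (by positivity)]
      simp
    have hterm : ∀ k : ZMod n, ((Real.sqrt n : ℝ) : ℂ)⁻¹ * (ZMod.stdAddChar (i * k) : ℂ) *
        star (((Real.sqrt n : ℝ) : ℂ)⁻¹ * (ZMod.stdAddChar (j * k) : ℂ)) =
        ((n : ℂ))⁻¹ * ZMod.stdAddChar (k * (i - j)) := by
      intro k
      rw [star_mul']
      have h1 : star (((Real.sqrt n : ℝ) : ℂ)⁻¹) = ((Real.sqrt n : ℝ) : ℂ)⁻¹ := by
        rw [← Complex.ofReal_inv]
        exact Complex.conj_ofReal _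
      have h2 : star ((ZMod.stdAddChar (j * k) : ℂ)) = (ZMod.stdAddChar (-(j * k)) : ℂ) := by
        rw [ZMod.stdAddChar_apply, ZMod.stdAddChar_apply, AddChar.map_neg_eq_inv, Circle.coe_inv_eq_conj]; rfl
      rw [h1, h2]
      rw [show k * (i - j) = i * k + -(j * k) by ring, AddChar.map_add_eq_mul, ← hs]
      ring
    rw [Finset.sum_congr rfl (fun k _ => hterm k), ← Finset.mul_sum]
    rw [AddChar.sum_mulShift (i - j) (ZMod.isPrimitive_stdAddChar n)]
    by_cases h : i = j
    · rw [if_pos (sub_eq_zero.mpr h), if_pos h, ZMod.card]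
      have : (n : ℂ) ≠ 0 := by exact_mod_cast NeZero.ne n
      field_simp
    · rw [if_neg (fun h' => h (sub_eq_zero.mp h')), if_neg h]
      simp⟩

/-- the clock phases -/
noncomputable def zt (n : ℕ) [NeZero n] : ZMod n → Circle := fun j => ZMod.toCircle j

/-- the constant phase -/
noncomputable def qt (n : ℕ) [NeZero n] : ZMod n → Circle := fun _ => ZMod.toCircle (1 : ZMod n)

theorem X_D (σ : ZMod n → Circle) : Xm n * Dg (ZMod n) σ = Dg (ZMod n) (sh n 1 σ) * Xm n := by
  apply Subtype.ext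
  show XM n * diagonal (fun i => (σ i : ℂ)) = diagonal (fun i => (σ (i + 1) : ℂ)) * XM n
  ext i j
  rw [mul_diagonal, diagonal_mul]
  simp only [XM, of_apply]
  by_cases h : j = i + 1
  · rw [if_pos h, one_mul, mul_one, h]
  · rw [if_neg h, zero_mul, mul_zero]

theorem q_comm (g : unitaryGroup (ZMod n) ℂ) : Dg (ZMod n) (qt n) * g = g * Dg (ZMod n) (qt n) := by
  apply Subtype.ext
  show diagonal (fun i => (qt n i : ℂ)) * (g : Matrix (ZMod n) (ZMod n) ℂ) =
    (g : Matrix (ZMod n) (ZMod n) ℂ) * diagonal (fun i => (qt n i : ℂ))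
  ext i j
  rw [mul_diagonal, diagonal_mul, mul_comm]
  rfl

theorem sh_zt : sh n 1 (zt n) = qt n * zt n := by
  funext j
  show ZMod.toCircle (j + 1) = ZMod.toCircle 1 * ZMod.toCircle j
  rw [AddChar.map_add_eq_mul, mul_comm]

theorem F_Z : Fm n * Dg (ZMod n) (zt n) = Xm n * Fm n := by
  apply Subtype.ext
  show FM n * diagonal (fun i => (zt n i : ℂ)) = XM n * FM n
  ext i j
  rw [mul_diagonal, mul_apply, Finset.sum_eq_single (i + 1)]
  · simp only [XM, FM, of_apply, zt, if_true]
    rw [one_mul, add_mul, one_mul, AddChar.map_add_eq_mul, ← ZMod.stdAddChar_apply, mul_assoc]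
  · intro k _ hk
    simp only [XM, of_apply]
    rw [if_neg hk, zero_mul]
  · intro h; exact absurd (Finset.mem_univ _) h

theorem Z_F_X : Dg (ZMod n) (zt n) * (Fm n * Xm n) = Fm n := by
  apply Subtype.ext
  show diagonal (fun i => (zt n i : ℂ)) * (FM n * XM n) = FM n
  ext i j
  rw [diagonal_mul, mul_apply, Finset.sum_eq_single (j - 1)]
  · simp only [XM, FM, of_apply, zt]
    rw [if_pos (by ring), mul_one]
    rw [show i * j = i + i * (j - 1) by ring, AddChar.map_add_eq_mul, ← ZMod.stdAddChar_apply]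
    ring
  · intro k _ hk
    simp only [XM, of_apply]
    rw [if_neg (fun h => hk (by rw [h]; ring)), mul_zero]
  · intro h; exact absurd (Finset.mem_univ _) h

/-- Solving `σ (j + c) / σ j = w j` on the cycle, for `c` a unit of `ZMod n`. -/
theorem exists_sh (c : (ZMod n)ˣ) (w : ZMod n → Circle) (hw : ∏ j, w j = 1) :
    ∃ σ : ZMod n → Circle, ∀ j, σ (j + c) / σ j = w j := by
  classical
  -- reduce to the step one by reindexing
  have step1 : ∀ w : ZMod n → Circle, ∏ j, w j = 1 →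
      ∃ σ : ZMod n → Circle, ∀ j, σ (j + 1) / σ j = w j := by
    intro w hw
    refine ⟨fun j => ∏ k ∈ Finset.range j.val, w (k : ZMod n), fun j => ?_⟩
    have hrange : ∏ k ∈ Finset.range n, w (k : ZMod n) = 1 := by
      rw [← hw]
      refine Finset.prod_bij (fun (k : ℕ) _ => (k : ZMod n)) (fun _ _ => Finset.mem_univ _) ?_ ?_ ?_
      · intro a ha b hb hab
        have h1 := ZMod.val_cast_of_lt (Finset.mem_range.mp ha)
        have h2 := ZMod.val_cast_of_lt (Finset.mem_range.mp hb)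
        rw [← h1, ← h2, hab]
      · intro b _
        exact ⟨b.val, Finset.mem_range.mpr (ZMod.val_lt b), ZMod.natCast_zmod_val b⟩
      · intro _ _; rfl
    by_cases hj : j.val + 1 < n
    · have hv : (j + 1).val = j.val + 1 := by
        have h := ZMod.val_add j 1
        rw [h]
        have h1 : (1 : ZMod n).val = 1 % n := ZMod.val_one_eq_one_mod n
        have hn1 : 1 < n := by omega
        rw [h1, Nat.mod_eq_of_lt hn1, Nat.mod_eq_of_lt hj]
      show (∏ k ∈ Finset.range (j + 1).val, w (k : ZMod n)) / _ = w j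
      rw [hv, Finset.prod_range_succ, ZMod.natCast_zmod_val, mul_comm, mul_div_assoc, div_self', mul_one]
    · have hlt := ZMod.val_lt j
      have hjn : j.val + 1 = n := by omega
      have hj0 : j + 1 = 0 := by
        have : ((j.val + 1 : ℕ) : ZMod n) = 0 := by rw [hjn]; exact ZMod.natCast_self n
        rwa [Nat.cast_add, ZMod.natCast_zmod_val, Nat.cast_one] at this
      show (∏ k ∈ Finset.range (j + 1).val, w (k : ZMod n)) / (∏ k ∈ Finset.range j.val, w (k : ZMod n)) = w j
      rw [hj0, ZMod.val_zero, Finset.range_zero, Finset.prod_empty]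
      have : (∏ k ∈ Finset.range j.val, w (k : ZMod n)) * w j = 1 := by
        have h := Finset.prod_range_succ (fun k : ℕ => w (k : ZMod n)) j.val
        rw [ZMod.natCast_zmod_val] at h
        rw [← h, hjn, hrange]
      rw [one_div]
      exact inv_eq_of_mul_eq_one_right this
  have hw' : ∏ j, w (c * j) = 1 := by
    rw [← hw]
    exact Fintype.prod_bijective (fun j : ZMod n => (c : ZMod n) * j)
      (Units.mulLeft_bijective c) _ _ (fun _ => rfl)
  obtain ⟨σ, hσ⟩ := step1 (fun j => w (c * j)) hw'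
  refine ⟨fun j => σ ((c⁻¹ : (ZMod n)ˣ) * j), fun j => ?_⟩
  have h := hσ ((c⁻¹ : (ZMod n)ˣ) * j)
  have e1 : ((c⁻¹ : (ZMod n)ˣ) : ZMod n) * (j + c) = ((c⁻¹ : (ZMod n)ˣ) : ZMod n) * j + 1 := by
    rw [mul_add, Units.inv_mul]
  show σ (((c⁻¹ : (ZMod n)ˣ) : ZMod n) * (j + c)) / σ (((c⁻¹ : (ZMod n)ˣ) : ZMod n) * j) = w j
  rw [e1, h]
  show w ((c : ZMod n) * (((c⁻¹ : (ZMod n)ˣ) : ZMod n) * j)) = w j
  rw [← mul_assoc, Units.mul_inv, one_mul]

/-- For odd `n`, every diagonal phase function of total product one is attained. -/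
theorem attained_odd (hn : Odd n) (t : ZMod n → Circle) (ht : ∏ j, t j = 1) :
    ∃ x y g : unitaryGroup (ZMod n) ℂ,
      cm (cm x y) (cm (x ^ 2) (y ^ 2)) = g * Dg (ZMod n) t * g⁻¹ := by
  classical
  -- the unit `2`
  have h2 : Nat.Coprime 2 n := by
    rw [Nat.coprime_two_left]; exact hn
  let two : (ZMod n)ˣ := ZMod.unitOfCoprime 2 h2
  have htwo : (two : ZMod n) = 2 := by
    show ((2 : ℕ) : ZMod n) = 2
    norm_num
  -- the target `S / τ S = q ^ 4 * t`
  have hq : (ZMod.toCircle (1 : ZMod n)) ^ n = 1 := by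
    rw [← AddChar.map_nsmul_eq_pow]
    have : n • (1 : ZMod n) = 0 := by simp
    rw [this, AddChar.map_zero_eq_one]
  have hw : ∏ j, ((ZMod.toCircle (1 : ZMod n)) ^ 4 * t j)⁻¹ = 1 := by
    rw [Finset.prod_inv_distrib, Finset.prod_mul_distrib, ht, mul_one, Finset.prod_const,
      Finset.card_univ, ZMod.card, ← pow_mul, mul_comm 4 n, pow_mul, hq, one_pow, inv_one]
  obtain ⟨S0, hS0⟩ := exists_sh (n := n) 1 _ hw
  -- normalise the total product of `S0`
  have hroot : ∃ l : Circle, l ^ n = (∏ j, S0 j)⁻¹ := by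
    obtain ⟨a, ha⟩ := Circle.exp_surjective ((∏ j, S0 j)⁻¹)
    refine ⟨Circle.exp (a / n), ?_⟩
    rw [← ha, ← Circle.exp_natCast_mul]
    congr 1
    have : (n : ℝ) ≠ 0 := by exact_mod_cast NeZero.ne n
    field_simp
  obtain ⟨l, hl⟩ := hroot
  let S : ZMod n → Circle := fun j => l * S0 j
  have hSprod : ∏ j, S j = 1 := by
    show ∏ j, (l * S0 j) = 1
    rw [Finset.prod_mul_distrib, Finset.prod_const, Finset.card_univ, ZMod.card, hl, inv_mul_cancel]
  have hSprod' : ∏ j : ZMod n, S (j + 1 + 1 + 1 + 1 + 1) = 1 := by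
    rw [← hSprod]
    exact Fintype.prod_bijective (fun j : ZMod n => j + 1 + 1 + 1 + 1 + 1)
      (by
        have : (fun j : ZMod n => j + 1 + 1 + 1 + 1 + 1) = fun j => j + 5 := by
          funext j; ring
        rw [this]
        exact (Equiv.addRight (5 : ZMod n)).bijective) _ _ (fun _ => rfl)
  obtain ⟨σ, hσ⟩ := exists_sh two _ hSprod'
  refine ⟨Dg (ZMod n) (zt n), Fm n * Dg (ZMod n) σ, Fm n, ?_⟩
  rw [word_conj (Dg (ZMod n)) (sh n 1) (Fm n) (Xm n) (zt n) (qt n) X_D q_comm sh_zt F_Z Z_F_X σ S]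
  · congr 3
    funext j
    show (ZMod.toCircle (1 : ZMod n))⁻¹ ^ 4 * (S j / S (j + 1)) = t j
    have h := hS0 j
    rw [Units.val_one] at h
    have h' : S j / S (j + 1) = (ZMod.toCircle (1 : ZMod n)) ^ 4 * t j := by
      show l * S0 j / (l * S0 (j + 1)) = _
      rw [mul_div_mul_left_eq_div, ← inv_div, h, inv_inv]
    rw [h', ← mul_assoc, ← mul_pow, inv_mul_cancel, one_pow, one_mul]
  · funext j
    show σ (j + 1 + 1) / σ j = S (j + 1 + 1 + 1 + 1 + 1)
    have h := hσ j
    rw [htwo, show j + 2 = j + 1 + 1 by ring] at h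
    exact h

end Pool.Agent.Helper1.SW
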