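import Mathlib
import Pool.Agent.Helper1.SW.OddMat
import Pool.Graph.R_seed8.TH236.SUMain

set_option autoImplicit false

namespace Pool.Agent.Helper1.SW

open Matrix Pool.TH236.SU

/-- `g` is a value of the word map on the unitary group. -/
def Att {X : Type*} [Fintype X] [DecidableEq X] (g : Matrix X X ℂ) : Prop :=
  ∃ x y : Matrix X X ℂ, x ∈ unitaryGroup X ℂ ∧ y ∈ unitaryGroup X ℂ ∧
    com (com x y) (com (x ^ 2) (y ^ 2)) = g

theorem Att.conj {X : Type*} [Fintype X] [DecidableEq X] {g : Matrix X X ℂ} (h : Att g)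
    (U : Matrix X X ℂ) (hU : U ∈ unitaryGroup X ℂ) : Att (U * g * star U) := by
  obtain ⟨x, y, hx, hy, hg⟩ := h
  have U1 : star U * U = 1 := mem_unitaryGroup_iff'.mp hU
  refine ⟨U * x * star U, U * y * star U, mul_mem (mul_mem hU hx) (Unitary.star_mem hU),
    mul_mem (mul_mem hU hy) (Unitary.star_mem hU), ?_⟩
  rw [conj_sq _ _ U1, conj_sq _ _ U1, com_conj _ _ _ U1, com_conj _ _ _ U1, com_conj _ _ _ U1, hg]

theorem Att.submatrix {X Y : Type*} [Fintype X] [DecidableEq X] [Fintype Y] [DecidableEq Y]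
    {g : Matrix X X ℂ} (h : Att g) (e : Y ≃ X) : Att (g.submatrix e e) := by
  obtain ⟨x, y, hx, hy, hg⟩ := h
  refine ⟨x.submatrix e e, y.submatrix e e, submatrix_mem e x hx, submatrix_mem e y hy, ?_⟩
  rw [sq_submatrix, sq_submatrix, com_submatrix, com_submatrix, com_submatrix, hg]

theorem com_fromBlocks {X Y : Type*} [Fintype X] [DecidableEq X] [Fintype Y] [DecidableEq Y]
    (a b : Matrix X X ℂ) (c d : Matrix Y Y ℂ) :
    com (fromBlocks a 0 0 c) (fromBlocks b 0 0 d) = fromBlocks (com a b) 0 0 (com c d) := by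
  unfold com
  simp only [star_eq_conjTranspose, fromBlocks_conjTranspose, conjTranspose_zero,
    fromBlocks_multiply, Matrix.mul_zero, Matrix.zero_mul, add_zero, zero_add]

theorem Att.fromBlocks {X Y : Type*} [Fintype X] [DecidableEq X] [Fintype Y] [DecidableEq Y]
    {g : Matrix X X ℂ} {k : Matrix Y Y ℂ} (hg : Att g) (hk : Att k) :
    Att (Matrix.fromBlocks g 0 0 k) := by
  obtain ⟨x, y, hx, hy, hg⟩ := hg
  obtain ⟨x', y', hx', hy', hk⟩ := hk
  have hmem : ∀ (a : Matrix X X ℂ) (c : Matrix Y Y ℂ), a ∈ unitaryGroup X ℂ → c ∈ unitaryGroup Y ℂ →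
      Matrix.fromBlocks a 0 0 c ∈ unitaryGroup (X ⊕ Y) ℂ := by
    intro a c ha hc
    rw [mem_unitaryGroup_iff] at ha hc ⊢
    rw [star_eq_conjTranspose] at ha hc ⊢
    rw [fromBlocks_conjTranspose, fromBlocks_multiply]
    simp only [conjTranspose_zero, Matrix.mul_zero, Matrix.zero_mul, add_zero, zero_add, ha, hc,
      fromBlocks_one]
  have hsq : ∀ (a : Matrix X X ℂ) (c : Matrix Y Y ℂ),
      (Matrix.fromBlocks a 0 0 c) ^ 2 = Matrix.fromBlocks (a ^ 2) 0 0 (c ^ 2) := by
    intro a c
    rw [sq, sq, sq, fromBlocks_multiply]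
    simp only [Matrix.mul_zero, Matrix.zero_mul, add_zero, zero_add]
  refine ⟨Matrix.fromBlocks x 0 0 x', Matrix.fromBlocks y 0 0 y', hmem _ _ hx hx', hmem _ _ hy hy', ?_⟩
  rw [hsq, hsq, com_fromBlocks, com_fromBlocks, com_fromBlocks, hg, hk]

/-- commutators in the unitary group and `com` -/
theorem coe_cm {X : Type*} [Fintype X] [DecidableEq X] (a b : unitaryGroup X ℂ) :
    ((cm a b : unitaryGroup X ℂ) : Matrix X X ℂ) = com (a : Matrix X X ℂ) (b : Matrix X X ℂ) := rfl

theorem att_diag_odd {n : ℕ} [NeZero n] (hn : Odd n) (t : ZMod n → Circle) (ht : ∏ j, t j = 1) :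
    Att (diagonal (fun j => (t j : ℂ))) := by
  obtain ⟨x, y, g, h⟩ := attained_odd hn t ht
  have h' := congrArg (Subtype.val) h
  have hA : Att ((g : Matrix (ZMod n) (ZMod n) ℂ) * diagonal (fun j => (t j : ℂ)) *
      star (g : Matrix (ZMod n) (ZMod n) ℂ)) := ⟨x, y, x.2, y.2, h'⟩
  have := hA.conj (star (g : Matrix (ZMod n) (ZMod n) ℂ)) (Unitary.star_mem g.2)
  have e : star (g : Matrix (ZMod n) (ZMod n) ℂ) * ((g : Matrix (ZMod n) (ZMod n) ℂ) *
      diagonal (fun j => (t j : ℂ)) * star (g : Matrix (ZMod n) (ZMod n) ℂ)) *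
      star (star (g : Matrix (ZMod n) (ZMod n) ℂ)) = diagonal (fun j => (t j : ℂ)) := by
    have g1 : star (g : Matrix (ZMod n) (ZMod n) ℂ) * (g : Matrix (ZMod n) (ZMod n) ℂ) = 1 :=
      mem_unitaryGroup_iff'.mp g.2
    rw [star_star]
    calc _ = (star (g : Matrix (ZMod n) (ZMod n) ℂ) * (g : Matrix (ZMod n) (ZMod n) ℂ)) *
          diagonal (fun j => (t j : ℂ)) *
          (star (g : Matrix (ZMod n) (ZMod n) ℂ) * (g : Matrix (ZMod n) (ZMod n) ℂ)) := by
          simp only [mul_assoc]
      _ = _ := by rw [g1, one_mul, mul_one]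
  rwa [e] at this

theorem att_diag_card {X : Type*} [Fintype X] [DecidableEq X] (hX : Odd (Fintype.card X))
    (t : X → Circle) (ht : ∏ j, t j = 1) : Att (diagonal (fun j => (t j : ℂ))) := by
  have hne : Fintype.card X ≠ 0 := by
    intro h; rw [h] at hX; exact absurd hX (by decide)
  have : NeZero (Fintype.card X) := ⟨hne⟩
  have e : X ≃ ZMod (Fintype.card X) := Fintype.equivOfCardEq (by rw [ZMod.card])
  have h := (att_diag_odd hX (fun j => t (e.symm j)) (by
    rw [← ht]; exact Equiv.prod_comp e.symm t)).submatrix e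
  have h2 : (diagonal (fun j => (t (e.symm j) : ℂ))).submatrix e e = diagonal (fun j => (t j : ℂ)) := by
    rw [submatrix_diagonal_equiv]
    congr 1
    funext j
    simp
  rwa [h2] at h

theorem att_diag_split {X : Type*} [Fintype X] [DecidableEq X] (p : X → Prop) [DecidablePred p]
    (h1 : Odd (Fintype.card {i // p i})) (h2 : Odd (Fintype.card {i // ¬ p i}))
    (t : X → Circle) (ht1 : ∏ j : {i // p i}, t j = 1) (ht2 : ∏ j : {i // ¬ p i}, t j = 1) :
    Att (diagonal (fun j => (t j : ℂ))) := by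
  have a1 := att_diag_card h1 (fun j => t j) ht1
  have a2 := att_diag_card h2 (fun j => t j) ht2
  have h := (a1.fromBlocks a2).submatrix (Equiv.sumCompl p).symm
  have e : (fromBlocks (diagonal fun j : {i // p i} => (t j : ℂ)) 0 0
      (diagonal fun j : {i // ¬ p i} => (t j : ℂ))).submatrix (Equiv.sumCompl p).symm
        (Equiv.sumCompl p).symm = diagonal (fun j => (t j : ℂ)) := by
    rw [fromBlocks_diagonal, submatrix_diagonal_equiv]
    congr 1
    funext j
    by_cases hj : p j
    · simp [Equiv.sumCompl_symm_apply_of_pos hj]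
    · simp [Equiv.sumCompl_symm_apply_of_neg hj]
  rwa [e] at h

/-- sub-multisets of an image come from sub-multisets -/
theorem exists_le_map {α β : Type*} (f : α → β) (m : Multiset α) (s : Multiset β)
    (h : s ≤ m.map f) : ∃ u ≤ m, u.map f = s := by
  induction m using Quotient.inductionOn with
  | h l =>
    induction s using Quotient.inductionOn with
    | h k =>
      obtain ⟨k', hk', hsub⟩ := h
      obtain ⟨l', hl', rfl⟩ := List.sublist_map_iff.mp hsub
      exact ⟨(l' : Multiset α), hl'.subperm, Quotient.sound hk'⟩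

theorem main (n : ℕ) (g : Matrix (Fin n) (Fin n) ℂ)
    (hg : g ∈ Matrix.specialUnitaryGroup (Fin n) ℂ)
    (hs : ∃ s ≤ g.charpoly.roots, Odd (Multiset.card s) ∧ s.prod = 1) :
    ∃ x y : Matrix (Fin n) (Fin n) ℂ,
          x ∈ Matrix.specialUnitaryGroup (Fin n) ℂ ∧
          y ∈ Matrix.specialUnitaryGroup (Fin n) ℂ ∧
          (x * y * star x * star y) * (x ^ 2 * y ^ 2 * star (x ^ 2) * star (y ^ 2)) *
            star (x * y * star x * star y) *
            star (x ^ 2 * y ^ 2 * star (x ^ 2) * star (y ^ 2)) = g := by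
  classical
  obtain ⟨hgU, hgd⟩ := Matrix.mem_specialUnitaryGroup_iff.mp hg
  obtain ⟨U, hU, d, hd⟩ := unitary_diag g hgU
  have hdn := diag_norm g U hgU hU d hd
  have U1 : star U * U = 1 := Matrix.mem_unitaryGroup_iff'.mp hU
  have U2 : U * star U = 1 := Matrix.mem_unitaryGroup_iff.mp hU
  have hprod : ∏ i, d i = 1 := by
    have h3 := congrArg Matrix.det hd
    rw [hgd, Matrix.det_mul, Matrix.det_mul, Matrix.det_diagonal] at h3
    have h4 := congrArg Matrix.det U2
    rw [Matrix.det_mul, Matrix.det_one] at h4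
    calc ∏ i, d i = (U.det * (star U).det) * ∏ i, d i := by rw [h4, one_mul]
      _ = U.det * (∏ i, d i) * (star U).det := by ring
      _ = 1 := h3.symm
  let t : Fin n → Circle := fun i => ⟨d i, mem_sphere_zero_iff_norm.2 (hdn i)⟩
  have htd : ∀ i, (t i : ℂ) = d i := fun i => rfl
  have htprod : ∏ i, t i = 1 := by
    apply Circle.ext
    rw [Circle.coe_one, ← hprod]
    exact map_prod Circle.coeHom t Finset.univ
  -- the eigenvalues
  have hroots : g.charpoly.roots = Finset.univ.val.map d := by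
    let Uu : (Matrix (Fin n) (Fin n) ℂ)ˣ := ⟨U, star U, U2, U1⟩
    have : g.charpoly = (diagonal d).charpoly := by
      have h5 := Matrix.charpoly_units_conj Uu (diagonal d)
      have h6 : (Uu : Matrix (Fin n) (Fin n) ℂ)⁻¹ = star U := Matrix.inv_eq_right_inv U2
      rw [h6] at h5
      rw [hd]
      exact h5
    rw [this, Matrix.charpoly_diagonal, Finset.prod_eq_multiset_prod]
    have h5 := Polynomial.roots_multiset_prod_X_sub_C (Finset.univ.val.map d)
    rw [Multiset.map_map] at h5
    exact h5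
  obtain ⟨s, hsle, hscard, hsprod⟩ := hs
  rw [hroots] at hsle
  obtain ⟨u, hu, hus⟩ := exists_le_map d _ s hsle
  have hnd : u.Nodup := Multiset.nodup_of_le hu Finset.univ.nodup
  let I : Finset (Fin n) := ⟨u, hnd⟩
  have hIcard : Odd I.card := by
    rw [← hus, Multiset.card_map] at hscard
    exact hscard
  have hIprod : ∏ i ∈ I, t i = 1 := by
    apply Circle.ext
    rw [Circle.coe_one, ← hsprod, ← hus]
    have : ((∏ i ∈ I, t i : Circle) : ℂ) = ∏ i ∈ I, (t i : ℂ) := map_prod Circle.coeHom t I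
    rw [this]
    rfl
  have hn0 : n ≠ 0 := by
    rintro rfl
    have : I = ∅ := Finset.eq_empty_of_isEmpty I
    rw [this] at hIcard
    exact absurd hIcard (by decide)
  have hatt : Att (diagonal (fun j => (t j : ℂ))) := by
    rcases Nat.even_or_odd n with hn | hn
    · apply att_diag_split (fun i => i ∈ I)
      · rw [Fintype.card_subtype]
        simpa using hIcard
      · rw [Fintype.card_subtype_compl, Fintype.card_fin, Fintype.card_subtype]
        have h6 : (Finset.univ.filter fun i => i ∈ I).card = I.card := by simp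
        rw [h6]
        have h7 : I.card ≤ n := by
          have := Finset.card_le_univ I
          rwa [Fintype.card_fin] at this
        exact Nat.Even.sub_odd h7 hn hIcard
      · rw [← hIprod]
        exact (Finset.prod_subtype I (p := fun i => i ∈ I) (fun i => Iff.rfl) t).symm
      · have h8 : (∏ i ∈ I, t i) * ∏ i ∈ Iᶜ, t i = 1 := by
          rw [Finset.prod_mul_prod_compl, htprod]
        rw [hIprod, one_mul] at h8
        rw [← h8]
        exact (Finset.prod_subtype Iᶜ (p := fun i => ¬ i ∈ I)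
          (fun i => Finset.mem_compl) t).symm
    · apply att_diag_card
      · rw [Fintype.card_fin]; exact hn
      · exact htprod
  have hattg : Att g := by
    have := hatt.conj U hU
    have e : (fun j => (t j : ℂ)) = d := funext htd
    rw [e, ← hd] at this
    exact this
  obtain ⟨x, y, hx, hy, hxy⟩ := hattg
  obtain ⟨c1, hc1, hx'⟩ := det_fix hn0 x hx
  obtain ⟨c2, hc2, hy'⟩ := det_fix hn0 y hy
  refine ⟨c1 • x, c2 • y, hx', hy', ?_⟩
  show com (com (c1 • x) (c2 • y)) (com ((c1 • x) ^ 2) ((c2 • y) ^ 2)) = g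
  rw [com_smul _ _ _ _ hc1 hc2, smul_pow, smul_pow]
  rw [com_smul _ _ (c1 ^ 2) (c2 ^ 2) (by rw [map_pow, ← mul_pow, hc1, one_pow])
    (by rw [map_pow, ← mul_pow, hc2, one_pow])]
  exact hxy

end Pool.Agent.Helper1.SW
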